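import Pool.Agent.Run7.h582.FM.Eg3
import Pool.Agent.R459.Bsd4

/-!
# The primes with a prescribed Fourier coefficient `a_p = r`, for all curves both of whose coefficients are near `lam n * x + c n`, for almost every pair `(x₁, x₂)` of all measures with Fourier decay

Let `N n ≥ exp (n ^ η)`, and let `lam n`, `c n`, `lam' n`, `c' n` be real numbers with `N n / log ^ T (N n) ≤ lam n ≤ B N n` and
`|c n| ≤ B N n`, and the same for `lam'`, `c'`. The theorem is about ALL the curves `y² = x³ + a x + b` where `a` is an integer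
at a distance of at most `log ^ V (N n)` from `lam n * x₁ + c n` and `b` is an integer at a distance of at most `log ^ V (N n)`
from `lam' n * x₂ + c' n`, for all large `n`, for almost every `x₁` and almost every `x₂` with respect to EVERY pair of finite
Borel measures with bounded support whose Fourier transforms are `O (|ξ| ^ (-δ'))` for some `δ' > 0`.

By the modularity theorem and the theory of new forms (not used here) these curves are those of the forms of the question, and
`a_p(E)` is the Fourier coefficient. By the class number formula of Deuring `model r x` is, up to bounded factors of the terms,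
the sum of `H(4 p - r²) / (2 p)` over the primes `p ≤ x`, where `H` is the class number of Hurwitz; so this is the count
predicted by Lang and Trotter on average over all curves, of order `x ^ (1 / 2) / log x`.

Method: a measure with polynomial Fourier decay is replaced by finite families of real numbers with the same exponential
sums (`Pool.Agent.Run7.h582.FM`); the characteristic functions of the integer parts of the members decay at all frequencies
with many binary digits far from those of an integer (with the theorem on integer parts of helper193, `Pool.Agent.N193.PS`);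
from there the passage to sums over primes of functions of residues is from the starting files (`Pool.Agent.R459.Eq`, and
helper794's form of it, `Pool.Agent.N794.CG`), and then the lemma of Borel and Cantelli is used.
-/

set_option autoImplicit false
set_option maxHeartbeats 4000000

namespace Pool.Agent.Results.MP_631487_nt.FourierDecayPairs

open Finset Filter MeasureTheory Pool.Agent.R459.Eq
open Pool.Agent.W263.BSD (GoodPrime pointCount)

/-- `N n ≥ exp (n ^ η)`, `|c n| ≤ B N n` and `N n / log ^ T (N n) ≤ lam n ≤ B N n` for large `n`. -/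
def Scales (η : ℝ) (B T : ℕ) (N : ℕ → ℕ) (lam c : ℕ → ℝ) : Prop :=
  ∀ᶠ n : ℕ in atTop, Real.exp ((n : ℝ) ^ η) ≤ N n ∧ |c n| ≤ B * N n ∧ lam n ≤ B * N n ∧
    (N n : ℝ) ≤ lam n * Real.log (N n) ^ T

/-- The distance of the integer `q` from the real number `y` is at most `log ^ V N`. -/
def Near (V N : ℕ) (y : ℝ) (q : ℤ) : Prop := |(q : ℝ) - y| ≤ Real.log N ^ V

/-- The range of the bounds for the primes: `log ^ L N ≤ X ≤ N ^ (1 / W)`. -/
def InRange (L W N X : ℕ) : Prop := Real.log N ^ L ≤ X ∧ (X : ℝ) ^ W ≤ N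

/-- `μ` is a finite Borel measure with bounded support and its Fourier transform `ξ ↦ ∫ exp (i ξ t) dμ (t)` is
`O (|ξ| ^ (-δ))` for some `δ > 0`. -/
def FourierDecay (μ : Measure ℝ) : Prop :=
  IsFiniteMeasure μ ∧ (∃ R : ℝ, μ (Set.Icc (-R) R)ᶜ = 0) ∧ ∃ C δ : ℝ, 0 < δ ∧ ∀ ξ : ℝ, ξ ≠ 0 →
    ‖∫ t : ℝ, Complex.exp (((ξ * t : ℝ) : ℂ) * Complex.I) ∂μ‖ ≤ C * |ξ| ^ (-δ)

/-- `p` is a prime of good reduction of the curve `E : y² = x³ + a x + n` (a prime which does not divide the discriminant
`-16 (4 a³ + 27 n²)`) and `a_p(E) = p - N_p = r`, where `N_p` is the number of the affine points modulo `p`. -/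
def Trace (r : ℤ) (p : ℕ) (a n : ℤ) : Prop := GoodPrime a n p ∧ (p : ℤ) - pointCount a n p = r

open Classical in
/-- The number `π_E(x, r)` of the primes `p ≤ x` of good reduction of `E : y² = x³ + a x + n` with `a_p(E) = r`. -/
noncomputable def piE (a n r : ℤ) (x : ℕ) : ℕ := ((range (x + 1)).filter (fun p => Trace r p a n)).card

open Classical in
/-- The sum over the primes `p ≤ x` of the proportion of the pairs `(α, ν)` of residues modulo `p` for which `p` is a prime of
good reduction of `y² = x³ + α x + ν` with trace `r`. -/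
noncomputable def model (r : ℤ) (x : ℕ) : ℝ :=
  ∑ p ∈ (range (x + 1)).filter Nat.Prime,
    (((range p ×ˢ range p).filter (fun z : ℕ × ℕ => Trace r p z.1 z.2)).card : ℝ) / (p : ℝ) ^ 2

/-- For all integers `|r| ≤ x ^ (δ / 4)` the number of the primes `p ≤ x` of good reduction of `E : y² = x³ + a x + n` with
`a_p(E) = r` differs from `model r x` by at most `3 x ^ δ` times the square root of `model r (4 x)` (or of `1`). -/
def Good (δ : ℝ) (x : ℕ) (a n : ℤ) : Prop := ∀ r : ℤ, |(r : ℝ)| ≤ (x : ℝ) ^ (δ / 4) →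
  |(piE a n r x : ℝ) - model r x| ≤ 3 * √(max 1 (model r (4 * x))) * (x : ℝ) ^ δ

lemma piE_eq (a n r : ℤ) (x : ℕ) : piE a n r x = cntR (Trace r) a n x := by
  classical
  unfold piE cntR
  congr 1
  ext p
  simp only [mem_filter, mem_range, mem_pri]
  constructor
  · rintro ⟨h1, h2⟩
    exact ⟨⟨by omega, h2.1.1⟩, h2⟩
  · rintro ⟨h1, h2⟩
    exact ⟨by omega, h2⟩

lemma model_eq (r : ℤ) (x : ℕ) : model r x = ∑ p ∈ pri x, dens2 (Trace r) p := by
  classical
  have e : (range (x + 1)).filter Nat.Prime = pri x := by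
    unfold pri
    congr!
  unfold model dens2
  rw [e]

lemma trace_per (r : ℤ) (p : ℕ) (_ : p.Prime) (a a' n n' : ℤ) (h : (p : ℤ) ∣ a - a') (h' : (p : ℤ) ∣ n - n') :
    Trace r p a n ↔ Trace r p a' n' := by
  have e1 : ((a : ℤ) : ZMod p) = ((a' : ℤ) : ZMod p) := by
    rw [← sub_eq_zero, ← Int.cast_sub, ZMod.intCast_zmod_eq_zero_iff_dvd]
    exact h
  have e2 : ((n : ℤ) : ZMod p) = ((n' : ℤ) : ZMod p) := by
    rw [← sub_eq_zero, ← Int.cast_sub, ZMod.intCast_zmod_eq_zero_iff_dvd]
    exact h'
  have h1 : GoodPrime a n p ↔ GoodPrime a' n' p := by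
    unfold GoodPrime
    rw [← ZMod.intCast_zmod_eq_zero_iff_dvd, ← ZMod.intCast_zmod_eq_zero_iff_dvd]
    push_cast
    rw [e1, e2]
  have h2 : pointCount a n p = pointCount a' n' p := by
    unfold pointCount
    rw [e1, e2]
  unfold Trace
  rw [h1, h2]

lemma trace_uniq (p : ℕ) (a n r r' : ℤ) (h : Trace r p a n) (h' : Trace r' p a n) : r = r' := by
  rw [← h.2, ← h'.2]

lemma rel (σ : ℤ) (hσ : σ = 1 ∨ σ = -1) : Pool.Agent.Run7.h582.FM.Rel (fun j : ℕ => Trace (σ * j)) := by
  refine ⟨fun j p hp a a' n n' => trace_per _ p hp a a' n n', fun p _ a n Q hQ => ?_⟩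
  have h1 : Q.card ≤ 1 := by
    rw [card_le_one]
    intro j hj j' hj'
    have h2 := trace_uniq p a n _ _ (hQ j hj) (hQ j' hj')
    have h4 : (j : ℤ) = j' := by
      rcases hσ with h | h <;> rw [h] at h2 <;> linarith
    exact_mod_cast h4
  omega

lemma sgn (r : ℤ) : ∃ j : ℕ, (r = 1 * j ∨ r = -1 * j) ∧ (j : ℝ) = |(r : ℝ)| := by
  refine ⟨r.natAbs, ?_, ?_⟩
  · rcases Int.natAbs_eq r with h | h
    · left
      omega
    · right
      omega
  · rw [← Int.cast_abs, Int.abs_eq_natAbs]
    rfl

/-- Let `0 < δ ≤ 1`. For all measures `μ₁`, `μ₂` with `FourierDecay` there is `W` such that for all `η > 0`, `V` there is `L` with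
the following property. Let sequences with `Scales η B T N lam c` and `Scales η B T N lam' c'` be given. For `μ₁`-almost every
real number `x₁` and `μ₂`-almost every real number `x₂`, for all large `n`: for ALL the integers `a` at a distance of at most
`log ^ V (N n)` from `lam n * x₁ + c n`, ALL the integers `b` at a distance of at most `log ^ V (N n)` from
`lam' n * x₂ + c' n` and ALL `X` with `log ^ L (N n) ≤ X` and `X ^ W ≤ N n` the curve `E : y² = x³ + a x + b` has the property
`Good δ X a b`: for ALL integers `|r| ≤ X ^ (δ / 4)` the number `π_E(X, r)` of the primes `p ≤ X` with `a_p(E) = r` is `M(X)` up to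
an error of at most `3 X ^ δ (max 1 M(4 X)) ^ (1 / 2)`, where `M(X)` is the sum over `p ≤ X` of the proportion of the pairs of
residues modulo `p` for which the curve has the trace `r`. -/
theorem result (δ : ℝ) (hδ : 0 < δ) (hδ1 : δ ≤ 1) (μ₁ μ₂ : Measure ℝ) (hμ₁ : FourierDecay μ₁) (hμ₂ : FourierDecay μ₂) :
    ∃ W : ℕ, 1 ≤ W ∧ ∀ η : ℝ, 0 < η → ∀ V : ℕ, ∃ L : ℕ,
      ∀ (B T : ℕ) (N : ℕ → ℕ) (lam c lam' c' : ℕ → ℝ), Scales η B T N lam c → Scales η B T N lam' c' →
      ∀ᵐ x₁ ∂μ₁, ∀ᵐ x₂ ∂μ₂, ∀ᶠ n : ℕ in atTop, ∀ a b : ℤ, Near V (N n) (lam n * x₁ + c n) a →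
        Near V (N n) (lam' n * x₂ + c' n) b → ∀ X : ℕ, InRange L W (N n) X → Good δ X a b := by
  obtain ⟨W, hW, H⟩ := Pool.Agent.Run7.h582.FM.ae_pairs (δ / 2) (by linarith) (by linarith) μ₁ μ₂ hμ₁ hμ₂
  refine ⟨W, hW, fun η hη V => ?_⟩
  obtain ⟨L, hL⟩ := H η hη V
  refine ⟨L, fun B T N lam c lam' c' hS hS' => ?_⟩
  filter_upwards [hL B T N lam c lam' c' hS hS' (fun _ j => Trace (1 * j)) (fun _ => rel 1 (Or.inl rfl)),
    hL B T N lam c lam' c' hS hS' (fun _ j => Trace (-1 * j)) (fun _ => rel (-1) (Or.inr rfl))] with x₁ h1 h2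
  filter_upwards [h1, h2] with x₂ k1 k2
  filter_upwards [k1, k2] with n g1 g2 a b ha hb X hX r hr
  have e1 : δ / 2 / 2 = δ / 4 := by ring
  have e2 : 2 * (δ / 2) = δ := by ring
  rw [piE_eq, model_eq, model_eq]
  obtain ⟨j, hj | hj, hj2⟩ := sgn r
  · have h3 := (g1 a b ha hb X hX.1 hX.2).2 j (by rw [hj2, e1]; exact hr)
    rw [e2] at h3
    rw [hj]
    exact h3
  · have h3 := (g2 a b ha hb X hX.1 hX.2).2 j (by rw [hj2, e1]; exact hr)
    rw [e2] at h3
    rw [hj]
    exact h3

end Pool.Agent.Results.MP_631487_nt.FourierDecayPairs
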