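import Pool.Agent.Run7.h710.TR.E
import Pool.Agent.R459.Bsd4

/-!
# The primes with a prescribed Fourier coefficient `a_p = r`, for almost all curves whose coefficients are both written by
transducers

The integers `u`, `v` are arbitrary, up to few exceptions; the transducers read their digits in the bases `a_i` and write
digits in the bases `b_i` (definitions in `Pool.Agent.Run7.h710.TR.Defs`).

By the modularity theorem and the theory of new forms (not used here) these curves are those of the forms of the question, and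
`a_p(E)` is the Fourier coefficient. By the class number formula of Deuring `model r x` is, up to bounded factors of the terms,
the sum of `H(4 p - r²) / (2 p)` over the primes `p ≤ x`, where `H` is the class number of Hurwitz; so this is the count
predicted by Lang and Trotter on average over all curves, of order `x ^ (1 / 2) / log x`.

Method: if two words of `L` digits lead from the same state to the same state and different words are written, then the two
parts of the exponential sum over the integers `T(v)` which belong to these words cancel in part at the places where the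
frequency has a digit which is not extremal. The passage from such exponential sums to sums over primes of functions of residues, for almost
all members of a family, is from the starting library (`Pool.Agent.R459.Eq`, `Pool.Agent.N794.CG`).

Definitions used: in `Pool.Agent.W263.BSD` (file `Pool/Agent/W263/BSD/Defs.lean`): `pointCount a n p` is the number of the
solutions of `y² = x³ + a x + n` modulo `p`, `GoodPrime a n p`: `p` is a prime which does not divide `2 (4 a³ + 27 n²)`.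

Examples: the bitwise conjunction or disjunction of `v` and `m v` (the carries are the states); the integer whose digit `i`
is `f(x_i, x_{i+1}, …, x_{i+r})`, where `x_i` are the digits of `v` and `f` is not constant (one-sided cellular automata).
-/

set_option autoImplicit false

namespace Pool.Agent.Results.MP_631487_nt.TransducerPairs

open Finset Filter Pool.Agent.R459.Eq Pool.Agent.N794.CG Pool.Agent.Run7.h710.TR
open Pool.Agent.W263.BSD (GoodPrime pointCount)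

/-- `p` is a prime of good reduction of the curve `E : y² = x³ + a x + n` (a prime which does not divide the discriminant
`-16 (4 a³ + 27 n²)`) and `a_p(E) = p - N_p = r`, where `N_p` is the number of the affine points modulo `p`. -/
def Trace (r : ℤ) (p : ℕ) (a n : ℤ) : Prop := GoodPrime a n p ∧ (p : ℤ) - pointCount a n p = r

open Classical in
/-- The number `π_E(x, r)` of the primes `p ≤ x` of good reduction of `E : y² = x³ + a x + n` with `a_p(E) = r`. -/
noncomputable def piE (a n r : ℤ) (x : ℕ) : ℕ := ((range (x + 1)).filter (fun p => Trace r p a n)).card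

open Classical in
/-- The sum over the primes `p ≤ x` of the proportion of the pairs `(α, ν)` of residues modulo `p` for which `p` is a prime of
good reduction of `y² = x³ + α x + ν` with trace `r`. -/
noncomputable def model (r : ℤ) (x : ℕ) : ℝ :=
  ∑ p ∈ (range (x + 1)).filter Nat.Prime,
    (((range p ×ˢ range p).filter (fun z : ℕ × ℕ => Trace r p z.1 z.2)).card : ℝ) / (p : ℝ) ^ 2

/-- For all integers `|r| ≤ x ^ (δ / 4)` the number of the primes `p ≤ x` of good reduction of `E : y² = x³ + a x + n` with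
`a_p(E) = r` differs from `model r x` by at most `3 x ^ δ` times the square root of `model r (4 x)` (or of `1`). -/
def Good (δ : ℝ) (x : ℕ) (a n : ℤ) : Prop := ∀ r : ℤ, |(r : ℝ)| ≤ (x : ℝ) ^ (δ / 4) →
  |(piE a n r x : ℝ) - model r x| ≤ 3 * √(max 1 (model r (4 * x))) * (x : ℝ) ^ δ

lemma piE_eq (a n r : ℤ) (x : ℕ) : piE a n r x = cntR (Trace r) a n x := by
  classical
  unfold piE cntR
  congr 1
  ext p
  simp only [mem_filter, mem_range, mem_pri]
  constructor
  · rintro ⟨h1, h2⟩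
    exact ⟨⟨by omega, h2.1.1⟩, h2⟩
  · rintro ⟨h1, h2⟩
    exact ⟨by omega, h2⟩

lemma model_eq (r : ℤ) (x : ℕ) : model r x = ∑ p ∈ pri x, dens2 (Trace r) p := by
  classical
  have e : (range (x + 1)).filter Nat.Prime = pri x := by
    unfold pri
    congr!
  unfold model dens2
  rw [e]

lemma trace_per (r : ℤ) (p : ℕ) (_ : p.Prime) (a a' n n' : ℤ) (h : (p : ℤ) ∣ a - a') (h' : (p : ℤ) ∣ n - n') :
    Trace r p a n ↔ Trace r p a' n' := by
  have e1 : ((a : ℤ) : ZMod p) = ((a' : ℤ) : ZMod p) := by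
    rw [← sub_eq_zero, ← Int.cast_sub, ZMod.intCast_zmod_eq_zero_iff_dvd]
    exact h
  have e2 : ((n : ℤ) : ZMod p) = ((n' : ℤ) : ZMod p) := by
    rw [← sub_eq_zero, ← Int.cast_sub, ZMod.intCast_zmod_eq_zero_iff_dvd]
    exact h'
  have h1 : GoodPrime a n p ↔ GoodPrime a' n' p := by
    unfold GoodPrime
    rw [← ZMod.intCast_zmod_eq_zero_iff_dvd, ← ZMod.intCast_zmod_eq_zero_iff_dvd]
    push_cast
    rw [e1, e2]
  have h2 : pointCount a n p = pointCount a' n' p := by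
    unfold pointCount
    rw [e1, e2]
  unfold Trace
  rw [h1, h2]

lemma trace_uniq (p : ℕ) (a n r r' : ℤ) (h : Trace r p a n) (h' : Trace r' p a n) : r = r' := by
  rw [← h.2, ← h'.2]

/-- a curve which is not good -/
lemma bad_of {δ : ℝ} {x : ℕ} {a n : ℤ} (h : ¬ Good δ x a n) : ∃ r : ℤ, |(r : ℝ)| ≤ (x : ℝ) ^ (δ / 2 / 2) ∧
    3 * √(max 1 (∑ p ∈ pri (4 * x), dens2 (Trace r) p)) * (x : ℝ) ^ (2 * (δ / 2)) <
      |(cntR (Trace r) a n x : ℝ) - ∑ p ∈ pri x, dens2 (Trace r) p| := by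
  unfold Good at h
  push Not at h
  obtain ⟨r, h1, h2⟩ := h
  have e1 : δ / 2 / 2 = δ / 4 := by ring
  have e2 : 2 * (δ / 2) = δ := by ring
  refine ⟨r, by rw [e1]; exact h1, ?_⟩
  rw [e2, ← model_eq, ← model_eq, ← piE_eq]
  exact h2

/-- the change of the range -/
lemma range_two {x W N : ℕ} (hx : 2 ≤ x) (h : x ^ (2 * W) ≤ N) : x ^ W ≤ N ∧ (2 * x) ^ W ≤ N := by
  have h1 : (2 * x) ^ W ≤ x ^ (2 * W) := by
    rw [pow_mul]
    exact Nat.pow_le_pow_left (by nlinarith) W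
  have h2 : x ^ W ≤ (2 * x) ^ W := Nat.pow_le_pow_left (by omega) W
  exact ⟨h2.trans (h1.trans h), h1.trans h⟩

open Classical in
/-- Let `b₁, b₂ ≥ 2`, `L₁, L₂ ≥ 1` and `0 < δ ≤ 1`. There is `W` such that for `κ₁, κ₂ ≠ 0` and all sufficiently large `X` the
following holds for all `k₁`, `k₂`, all integers `c₁`, `c₂` and ALL transducers `T₁`, `T₂` (with finitely or infinitely many
states, with arbitrary initial states, reading from the left or from the right) which read digits `< a_i` and write digits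
`< b_i`, such that from every state two words of `L_i` digits lead to the same state, while different words are written.

For all the pairs `(u, v)` of integers `u < a₁ ^ k₁`, `v < a₂ ^ k₂`, up to a proportion of at most `8 X ^ (- δ / 4)`, the
curve `E : y² = x³ + A x + n` with `A = c₁ + κ₁ T₁(u)` and `n = c₂ + κ₂ T₂(v)` has the following property for ALL `x ≥ X` with
`x ^ W ≤ b₁ ^ k₁` and `x ^ W ≤ b₂ ^ k₂` and ALL integers `|r| ≤ x ^ (δ / 4)`: the number `π_E(x, r)` of the primes `p ≤ x` with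
`a_p(E) = r` is `M(x)` up to an error of at most `3 x ^ δ (max 1 M(4 x)) ^ (1 / 2)`, where `M(x)` is the sum over `p ≤ x` of the
proportion of the pairs of residues modulo `p` for which the curve has the trace `r`. -/
theorem result (a₁ a₂ b₁ b₂ L₁ L₂ : ℕ) (hb₁ : 2 ≤ b₁) (hb₂ : 2 ≤ b₂) (hL₁ : 1 ≤ L₁) (hL₂ : 1 ≤ L₂) (δ : ℝ) (hδ : 0 < δ)
    (hδ1 : δ ≤ 1) : ∃ W : ℕ, 1 ≤ W ∧ ∀ κ₁ κ₂ : ℤ, κ₁ ≠ 0 → κ₂ ≠ 0 → ∃ X₀ : ℕ, ∀ X : ℕ, X₀ ≤ X →
    ∀ (k₁ k₂ : ℕ) (S₁ S₂ : Type) (τ₁ : S₁ → ℕ → S₁) (τ₂ : S₂ → ℕ → S₂) (o₁ : S₁ → ℕ → ℕ) (o₂ : S₂ → ℕ → ℕ),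
    Transducer a₁ b₁ L₁ τ₁ o₁ → Transducer a₂ b₂ L₂ τ₂ o₂ →
    ∀ (left₁ left₂ : Bool) (s₁ : S₁) (s₂ : S₂) (c₁ c₂ : ℤ),
      (((range (a₁ ^ k₁) ×ˢ range (a₂ ^ k₂)).filter (fun z : ℕ × ℕ => ¬ ∀ x : ℕ, X ≤ x → x ^ W ≤ b₁ ^ k₁ → x ^ W ≤ b₂ ^ k₂ →
        Good δ x (c₁ + κ₁ * (image a₁ b₁ τ₁ o₁ left₁ k₁ s₁ z.1 : ℕ))
          (c₂ + κ₂ * (image a₂ b₂ τ₂ o₂ left₂ k₂ s₂ z.2 : ℕ)))).card : ℝ) ≤
        8 * (X : ℝ) ^ (-(δ / 4)) * ((a₁ : ℝ) ^ k₁ * (a₂ : ℝ) ^ k₂) := by
  obtain ⟨W₁, hW₁, H₁⟩ := fineAt_tr (δ / 2) (by linarith) (by linarith) a₁ b₁ L₁ hb₁ hL₁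
  obtain ⟨W₂, hW₂, H₂⟩ := fineAt_tr (δ / 2) (by linarith) (by linarith) a₂ b₂ L₂ hb₂ hL₂
  refine ⟨2 * (W₁ + W₂), by omega, fun κ₁ κ₂ hκ₁ hκ₂ => ?_⟩
  obtain ⟨X₁, J₁⟩ := H₁ κ₁ hκ₁
  obtain ⟨X₂, J₂⟩ := H₂ κ₂ hκ₂
  refine ⟨X₁ + X₂ + 2, fun X hX k₁ k₂ S₁ S₂ τ₁ τ₂ o₁ o₂ hT₁ hT₂ left₁ left₂ s₁ s₂ c₁ c₂ => ?_⟩
  have ha₁ := two_le hT₁ s₁
  have ha₂ := two_le hT₂ s₂
  have F₁ := J₁ X (by omega) k₁ S₁ τ₁ o₁ hT₁ left₁ s₁ c₁
  have F₂ := J₂ X (by omega) k₂ S₂ τ₂ o₂ hT₂ left₂ s₂ c₂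
  obtain ⟨E, hE⟩ : ∃ E : Finset (ℕ × ℕ), E = (range (a₁ ^ k₁) ×ˢ range (a₂ ^ k₂)).filter (fun z : ℕ × ℕ => ¬ ∀ x : ℕ, X ≤ x →
        x ^ (2 * (W₁ + W₂)) ≤ b₁ ^ k₁ → x ^ (2 * (W₁ + W₂)) ≤ b₂ ^ k₂ →
        Good δ x (c₁ + κ₁ * (image a₁ b₁ τ₁ o₁ left₁ k₁ s₁ z.1 : ℕ))
          (c₂ + κ₂ * (image a₂ b₂ τ₂ o₂ left₂ k₂ s₂ z.2 : ℕ))) := ⟨_, rfl⟩
  rw [← hE]
  have h0 := pairs_trace (fun i _ => wt_nonneg a₁ k₁ i) (fun i _ => wt_nonneg a₂ k₂ i)
    (wt_sum a₁ k₁ (by omega)).le (wt_sum a₂ k₂ (by omega)).le (by linarith : 0 < δ / 2) (by linarith)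
      (by omega : 1 ≤ X) (by positivity) F₁ F₂ Trace trace_per trace_uniq E (by rw [hE]; exact filter_subset _ _) (by
        intro z hz
        rw [hE] at hz
        have h2 := (mem_filter.1 hz).2
        push Not at h2
        obtain ⟨x, hXx, h3, h4, h5⟩ := h2
        have hx2 : 2 ≤ x := by omega
        have key : ∀ (W' Z : ℕ), W' ≤ W₁ + W₂ → x ^ (2 * (W₁ + W₂)) ≤ Z → x ^ W' ≤ Z ∧ (2 * x) ^ W' ≤ Z := by
          intro W' Z hW' hZ
          exact range_two hx2 ((Nat.pow_le_pow_right (by omega) (by omega : 2 * W' ≤ 2 * (W₁ + W₂))).trans hZ)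
        exact ⟨x, hXx, (key W₁ _ (by omega) h3).1, (key W₁ _ (by omega) h3).2, (key W₂ _ (by omega) h4).1, bad_of h5⟩)
  have hA₁ : (0 : ℝ) < ((a₁ ^ k₁ : ℕ) : ℝ) := by exact_mod_cast pow_pos (by omega : 0 < a₁) k₁
  have hA₂ : (0 : ℝ) < ((a₂ ^ k₂ : ℕ) : ℝ) := by exact_mod_cast pow_pos (by omega : 0 < a₂) k₂
  unfold wt at h0
  rw [sum_const, nsmul_eq_mul] at h0
  have e1 : (E.card : ℝ) * (1 / ((a₁ ^ k₁ : ℕ) : ℝ) * (1 / ((a₂ ^ k₂ : ℕ) : ℝ))) =
      E.card / (((a₁ ^ k₁ : ℕ) : ℝ) * ((a₂ ^ k₂ : ℕ) : ℝ)) := by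
    field_simp
  rw [e1, div_le_iff₀ (mul_pos hA₁ hA₂)] at h0
  have e : δ / 2 / 2 = δ / 4 := by ring
  rw [e] at h0
  refine h0.trans (le_of_eq ?_)
  push_cast
  ring

end Pool.Agent.Results.MP_631487_nt.TransducerPairs
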