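import Pool.Agent.Run7.h844.RP.PwC
import Pool.Agent.R459.Bsd4

/-!
# The primes with a prescribed Fourier coefficient `a_p = r`, for almost all curves whose coefficients are both values of
generalised polynomials at primes

From `Pool.Agent.W263.BSD` (file `Pool/Agent/W263/BSD/Defs.lean`): `pointCount a b p` is the number of the solutions of
`y² = x³ + a x + b` modulo `p`, `GoodPrime a b p`: `p` is a prime which does not divide `2 (4 a³ + 27 b²)`.

By the modularity theorem and the theory of new forms (not used here) these curves are those of the forms of the question, and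
`a_p(E)` is the Fourier coefficient. By the class number formula of Deuring `model r x` is, up to bounded factors of the terms,
the sum of `H(4 p - r²) / (2 p)` over the primes `p ≤ x`, where `H` is the class number of Hurwitz; so this is the count
predicted by Lang and Trotter on average over all curves, of order `x ^ (1 / 2) / log x`.

Method: exponential sums over primes with the phase of a generalised polynomial: derivative bounds uniform in the
coefficients, van der Corput differencing of all orders, bilinear sums, Vaughan's identity (after `Pool.Agent.H895R3.NK`,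
`Pool.Agent.H373R2.T7`), with a power saving at all frequencies up to a power, and a discrete Fejér kernel for the passage to
the integer parts (library `Pool.Agent.Run7.h844.RP`). The passage from such exponential sums to sums over primes of
functions of residues, for almost all members, is from the starting files (`Pool.Agent.R459.Eq`, `Pool.Agent.N794.CG`).
-/

set_option autoImplicit false

namespace Pool.Agent.Results.MP_631487_nt.ValuesAtPrimes

open Finset Filter Pool.Agent.R459.Eq Pool.Agent.N794.CG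
open Pool.Agent.W263.BSD (GoodPrime pointCount)

/-- The generalised polynomial `∑ a x * t ^ x`, `x ∈ F`, with real exponents and coefficients. -/
noncomputable def genPoly (F : Finset ℝ) (a : ℝ → ℝ) (t : ℝ) : ℝ := ∑ x ∈ F, a x * t ^ x

/-- `c` is the largest exponent; it is positive and not an integer, and its coefficient is not zero. -/
def Leading (F : Finset ℝ) (a : ℝ → ℝ) (c : ℝ) : Prop :=
  c ∈ F ∧ (∀ x ∈ F, x ≤ c) ∧ 0 < c ∧ (∀ m : ℕ, c ≠ m) ∧ a c ≠ 0

/-- `p` is a prime of good reduction of the curve `E : y² = x³ + a x + n` (a prime which does not divide the discriminant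
`-16 (4 a³ + 27 n²)`) and `a_p(E) = p - N_p = r`, where `N_p` is the number of the affine points modulo `p`. -/
def Trace (r : ℤ) (p : ℕ) (a n : ℤ) : Prop := GoodPrime a n p ∧ (p : ℤ) - pointCount a n p = r

open Classical in
/-- The number `π_E(x, r)` of the primes `p ≤ x` of good reduction of `E : y² = x³ + a x + n` with `a_p(E) = r`. -/
noncomputable def piE (a n r : ℤ) (x : ℕ) : ℕ := ((range (x + 1)).filter (fun p => Trace r p a n)).card

open Classical in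
/-- The sum over the primes `p ≤ x` of the proportion of the pairs `(α, ν)` of residues modulo `p` for which `p` is a prime of
good reduction of `y² = x³ + α x + ν` with trace `r`. -/
noncomputable def model (r : ℤ) (x : ℕ) : ℝ :=
  ∑ p ∈ (range (x + 1)).filter Nat.Prime,
    (((range p ×ˢ range p).filter (fun z : ℕ × ℕ => Trace r p z.1 z.2)).card : ℝ) / (p : ℝ) ^ 2

/-- For all integers `|r| ≤ x ^ (δ / 4)` the number of the primes `p ≤ x` of good reduction of `E : y² = x³ + a x + n` with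
`a_p(E) = r` differs from `model r x` by at most `3 x ^ δ` times the square root of `model r (4 x)` (or of `1`). -/
def Good (δ : ℝ) (x : ℕ) (a n : ℤ) : Prop := ∀ r : ℤ, |(r : ℝ)| ≤ (x : ℝ) ^ (δ / 4) →
  |(piE a n r x : ℝ) - model r x| ≤ 3 * √(max 1 (model r (4 * x))) * (x : ℝ) ^ δ

lemma piE_eq (a n r : ℤ) (x : ℕ) : piE a n r x = cntR (Trace r) a n x := by
  classical
  unfold piE cntR
  congr 1
  ext p
  simp only [mem_filter, mem_range, mem_pri]
  constructor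
  · rintro ⟨h1, h2⟩
    exact ⟨⟨by omega, h2.1.1⟩, h2⟩
  · rintro ⟨h1, h2⟩
    exact ⟨by omega, h2⟩

lemma model_eq (r : ℤ) (x : ℕ) : model r x = ∑ p ∈ pri x, dens2 (Trace r) p := by
  classical
  have e : (range (x + 1)).filter Nat.Prime = pri x := by
    unfold pri
    congr!
  unfold model dens2
  rw [e]

lemma trace_per (r : ℤ) (p : ℕ) (_ : p.Prime) (a a' n n' : ℤ) (h : (p : ℤ) ∣ a - a') (h' : (p : ℤ) ∣ n - n') :
    Trace r p a n ↔ Trace r p a' n' := by
  have e1 : ((a : ℤ) : ZMod p) = ((a' : ℤ) : ZMod p) := by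
    rw [← sub_eq_zero, ← Int.cast_sub, ZMod.intCast_zmod_eq_zero_iff_dvd]
    exact h
  have e2 : ((n : ℤ) : ZMod p) = ((n' : ℤ) : ZMod p) := by
    rw [← sub_eq_zero, ← Int.cast_sub, ZMod.intCast_zmod_eq_zero_iff_dvd]
    exact h'
  have h1 : GoodPrime a n p ↔ GoodPrime a' n' p := by
    unfold GoodPrime
    rw [← ZMod.intCast_zmod_eq_zero_iff_dvd, ← ZMod.intCast_zmod_eq_zero_iff_dvd]
    push_cast
    rw [e1, e2]
  have h2 : pointCount a n p = pointCount a' n' p := by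
    unfold pointCount
    rw [e1, e2]
  unfold Trace
  rw [h1, h2]

lemma trace_uniq (p : ℕ) (a n r r' : ℤ) (h : Trace r p a n) (h' : Trace r' p a n) : r = r' := by
  rw [← h.2, ← h'.2]

/-- a curve which is not good -/
lemma bad_of {δ : ℝ} {x : ℕ} {a n : ℤ} (h : ¬ Good δ x a n) : ∃ r : ℤ, |(r : ℝ)| ≤ (x : ℝ) ^ (δ / 2 / 2) ∧
    3 * √(max 1 (∑ p ∈ pri (4 * x), dens2 (Trace r) p)) * (x : ℝ) ^ (2 * (δ / 2)) <
      |(cntR (Trace r) a n x : ℝ) - ∑ p ∈ pri x, dens2 (Trace r) p| := by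
  unfold Good at h
  push Not at h
  obtain ⟨r, h1, h2⟩ := h
  have e1 : δ / 2 / 2 = δ / 4 := by ring
  have e2 : 2 * (δ / 2) = δ := by ring
  refine ⟨r, by rw [e1]; exact h1, ?_⟩
  rw [e2, ← model_eq, ← model_eq, ← piE_eq]
  exact h2

open Classical in
/-- Let `g₁(t) = ∑ b₁ x t ^ x`, `g₂(t) = ∑ b₂ x t ^ x` be generalised polynomials whose largest exponents `c₁`, `c₂` are
positive and not integers, and let `0 < δ ≤ 1`. There is `θ > 0` such that for `κ₁, κ₂ ≠ 0` and all sufficiently large `X`, `N₁`,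
`N₂` the following holds for all real numbers `z₁`, `z₂` and all integers `e₁`, `e₂`.

For almost all the pairs `(q, s)` of primes `N₁ < q ≤ 2 N₁`, `N₂ < s ≤ 2 N₂`, up to a proportion of at most `8 X ^ (- δ / 4)`,
the curve `E : y² = x³ + a x + n` with `a = e₁ + κ₁ ⌊g₁(q) + z₁⌋` and `n = e₂ + κ₂ ⌊g₂(s) + z₂⌋` has the following property for
ALL `x ≥ X` with `2 x ≤ N₁ ^ θ` and `2 x ≤ N₂ ^ θ` and ALL integers `|r| ≤ x ^ (δ / 4)`: the number `π_E(x, r)` of the primes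
`p ≤ x` with `a_p(E) = r` is `M(x)` up to an error of at most `3 x ^ δ (max 1 M(4 x)) ^ (1 / 2)`, where `M(x)` is the sum over
`p ≤ x` of the proportion of the pairs of residues modulo `p` for which the curve has the trace `r`. -/
theorem result (F₁ F₂ : Finset ℝ) (b₁ b₂ : ℝ → ℝ) (c₁ c₂ : ℝ) (hF₁ : Leading F₁ b₁ c₁) (hF₂ : Leading F₂ b₂ c₂) :
    ∀ δ : ℝ, 0 < δ → δ ≤ 1 → ∃ θ : ℝ, 0 < θ ∧ ∀ κ₁ κ₂ : ℤ, κ₁ ≠ 0 → κ₂ ≠ 0 → ∃ X₀ : ℕ, ∀ X N₁ N₂ : ℕ,
      X₀ ≤ X → X₀ ≤ N₁ → X₀ ≤ N₂ → ∀ (z₁ z₂ : ℝ) (e₁ e₂ : ℤ),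
      (((((Ioc N₁ (2 * N₁)).filter Nat.Prime) ×ˢ ((Ioc N₂ (2 * N₂)).filter Nat.Prime)).filter (fun z : ℕ × ℕ =>
        ¬ ∀ x : ℕ, X ≤ x → 2 * (x : ℝ) ≤ (N₁ : ℝ) ^ θ → 2 * (x : ℝ) ≤ (N₂ : ℝ) ^ θ →
        Good δ x (e₁ + κ₁ * ⌊genPoly F₁ b₁ z.1 + z₁⌋) (e₂ + κ₂ * ⌊genPoly F₂ b₂ z.2 + z₂⌋))).card : ℝ) ≤
        8 * (X : ℝ) ^ (-(δ / 4)) *
          ((((Ioc N₁ (2 * N₁)).filter Nat.Prime).card : ℝ) * (((Ioc N₂ (2 * N₂)).filter Nat.Prime).card : ℝ)) := by
  intro δ hδ hδ1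
  obtain ⟨θ₁, hθ₁, H₁⟩ := Pool.Agent.Run7.h844.RP.primes_fine F₁ c₁ hF₁.1 hF₁.2.2.2.1 hF₁.2.2.1 hF₁.2.1 b₁ hF₁.2.2.2.2
    (δ / 2) (by linarith) (by linarith)
  obtain ⟨θ₂, hθ₂, H₂⟩ := Pool.Agent.Run7.h844.RP.primes_fine F₂ c₂ hF₂.1 hF₂.2.2.2.1 hF₂.2.2.1 hF₂.2.1 b₂ hF₂.2.2.2.2
    (δ / 2) (by linarith) (by linarith)
  refine ⟨min θ₁ θ₂, lt_min hθ₁ hθ₂, fun κ₁ κ₂ hκ₁ hκ₂ => ?_⟩
  obtain ⟨X₁, J₁⟩ := H₁ κ₁ hκ₁
  obtain ⟨X₂, J₂⟩ := H₂ κ₂ hκ₂
  refine ⟨X₁ + X₂ + 2, fun X N₁ N₂ hX hN₁ hN₂ z₁ z₂ e₁ e₂ => ?_⟩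
  have hone : ∀ M : Finset ℕ, ∑ _i ∈ M, 1 / (M.card : ℝ) ≤ 1 := by
    intro M
    rw [sum_const, nsmul_eq_mul, mul_one_div]
    exact div_self_le_one _
  have E₁ := J₁ X N₁ (by omega) (by omega) z₁ e₁
  have E₂ := J₂ X N₂ (by omega) (by omega) z₂ e₂
  have hN₁r : (1 : ℝ) ≤ N₁ := by exact_mod_cast (by omega : 1 ≤ N₁)
  have hN₂r : (1 : ℝ) ≤ N₂ := by exact_mod_cast (by omega : 1 ≤ N₂)
  have h1 := pairs_card (Pool.Agent.Run7.h844.RP.PB N₁) (Pool.Agent.Run7.h844.RP.PB N₂) _ (filter_subset _ _) _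
    (pairs_trace (Ω₁ := Pool.Agent.Run7.h844.RP.PB N₁) (Ω₂ := Pool.Agent.Run7.h844.RP.PB N₂)
      (w₁ := fun _ => 1 / ((Pool.Agent.Run7.h844.RP.PB N₁).card : ℝ))
      (w₂ := fun _ => 1 / ((Pool.Agent.Run7.h844.RP.PB N₂).card : ℝ))
      (fun _ _ => by positivity) (fun _ _ => by positivity) (hone _) (hone _) (by linarith : 0 < δ / 2) (by linarith)
      (by omega : 1 ≤ X) (by positivity) E₁ E₂ Trace trace_per trace_uniq
      ((Pool.Agent.Run7.h844.RP.PB N₁ ×ˢ Pool.Agent.Run7.h844.RP.PB N₂).filter (fun z : ℕ × ℕ =>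
        ¬ ∀ x : ℕ, X ≤ x → 2 * (x : ℝ) ≤ (N₁ : ℝ) ^ (min θ₁ θ₂) → 2 * (x : ℝ) ≤ (N₂ : ℝ) ^ (min θ₁ θ₂) →
        Good δ x (e₁ + κ₁ * ⌊genPoly F₁ b₁ z.1 + z₁⌋) (e₂ + κ₂ * ⌊genPoly F₂ b₂ z.2 + z₂⌋))) (filter_subset _ _) (by
        intro z hz
        have h2 := (mem_filter.1 hz).2
        push Not at h2
        obtain ⟨x, hXx, h3, h4, h5⟩ := h2
        have hx0 : (0 : ℝ) ≤ x := Nat.cast_nonneg _
        have k1 : 2 * (x : ℝ) ≤ (N₁ : ℝ) ^ θ₁ := h3.trans (Real.rpow_le_rpow_of_exponent_le hN₁r (min_le_left _ _))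
        have k2 : 2 * (x : ℝ) ≤ (N₂ : ℝ) ^ θ₂ := h4.trans (Real.rpow_le_rpow_of_exponent_le hN₂r (min_le_right _ _))
        refine ⟨x, hXx, by linarith, by push_cast; exact k1, by linarith, bad_of h5⟩))
  refine h1.trans (le_of_eq ?_)
  have e : δ / 2 / 2 = δ / 4 := by ring
  rw [e]
  unfold Pool.Agent.Run7.h844.RP.PB
  ring

end Pool.Agent.Results.MP_631487_nt.ValuesAtPrimes
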