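import Pool.Agent.Run7.h672.CC.H
import Pool.Agent.N794.CG.Apps2
import Pool.Agent.N794.CG.Pairs
import Pool.Agent.R459.Bsd4

/-!
# The primes with a prescribed Fourier coefficient `a_p = r`, for almost all curves whose coefficients are both random integers
written by independent random words

The definitions `len`, `Words`, `cat`, `noRest`, `cutWord`, `WordLaw` are in `Pool.Agent.Run7.h672.CC.Defs`.

By the modularity theorem and the theory of new forms (not used here) these curves are those of the forms of the question, and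
`a_p(E)` is the Fourier coefficient. By the class number formula of Deuring `model r x` is, up to bounded factors of the terms,
the sum of `H(4 p - r²) / (2 p)` over the primes `p ≤ x`, where `H` is the class number of Hurwitz; so this is the count
predicted by Lang and Trotter on average over all curves, of order `x ^ (1 / 2) / log x`.

Method: the exponential sums of a random integer written by random words are small at all frequencies with many places far from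
the integers (`word_decays` in `Pool.Agent.Run7.h672.CC`, by a strong renewal theorem and the exchange of two words which do not
commute). The passage from such exponential sums to sums over primes of functions of residues, for almost all members of a
family, is from the starting library (`Pool.Agent.R459.Eq`, `Pool.Agent.N794.CG`). The form of the statement is that of
`TransducerPairs` (helper710).

Definitions used: in `Pool.Agent.W263.BSD` (file `Pool/Agent/W263/BSD/Defs.lean`): `pointCount a n p` is the number of the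
solutions of `y² = x³ + a x + n` modulo `p`, `GoodPrime a n p`: `p` is a prime which does not divide `2 (4 a³ + 27 n²)`.
-/

set_option autoImplicit false

namespace Pool.Agent.Results.MP_631487_nt.WordPairs

open Finset Filter Pool.Agent.R459.Eq Pool.Agent.N794.CG Pool.Agent.Run7.h672.CC
open Pool.Agent.W263.BSD (GoodPrime pointCount)

/-- `p` is a prime of good reduction of the curve `E : y² = x³ + a x + n` (a prime which does not divide the discriminant
`-16 (4 a³ + 27 n²)`) and `a_p(E) = p - N_p = r`, where `N_p` is the number of the affine points modulo `p`. -/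
def Trace (r : ℤ) (p : ℕ) (a n : ℤ) : Prop := GoodPrime a n p ∧ (p : ℤ) - pointCount a n p = r

open Classical in
/-- The number `π_E(x, r)` of the primes `p ≤ x` of good reduction of `E : y² = x³ + a x + n` with `a_p(E) = r`. -/
noncomputable def piE (a n r : ℤ) (x : ℕ) : ℕ := ((range (x + 1)).filter (fun p => Trace r p a n)).card

open Classical in
/-- The sum over the primes `p ≤ x` of the proportion of the pairs `(α, ν)` of residues modulo `p` for which `p` is a prime of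
good reduction of `y² = x³ + α x + ν` with trace `r`. -/
noncomputable def model (r : ℤ) (x : ℕ) : ℝ :=
  ∑ p ∈ (range (x + 1)).filter Nat.Prime,
    (((range p ×ˢ range p).filter (fun z : ℕ × ℕ => Trace r p z.1 z.2)).card : ℝ) / (p : ℝ) ^ 2

/-- For all integers `|r| ≤ x ^ (δ / 4)` the number of the primes `p ≤ x` of good reduction of `E : y² = x³ + a x + n` with
`a_p(E) = r` differs from `model r x` by at most `3 x ^ δ` times the square root of `model r (4 x)` (or of `1`). -/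
def Good (δ : ℝ) (x : ℕ) (a n : ℤ) : Prop := ∀ r : ℤ, |(r : ℝ)| ≤ (x : ℝ) ^ (δ / 4) →
  |(piE a n r x : ℝ) - model r x| ≤ 3 * √(max 1 (model r (4 * x))) * (x : ℝ) ^ δ

lemma piE_eq (a n r : ℤ) (x : ℕ) : piE a n r x = cntR (Trace r) a n x := by
  classical
  unfold piE cntR
  congr 1
  ext p
  simp only [mem_filter, mem_range, mem_pri]
  constructor
  · rintro ⟨h1, h2⟩
    exact ⟨⟨by omega, h2.1.1⟩, h2⟩
  · rintro ⟨h1, h2⟩
    exact ⟨by omega, h2⟩

lemma model_eq (r : ℤ) (x : ℕ) : model r x = ∑ p ∈ pri x, dens2 (Trace r) p := by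
  classical
  have e : (range (x + 1)).filter Nat.Prime = pri x := by
    unfold pri
    congr!
  unfold model dens2
  rw [e]

lemma trace_per (r : ℤ) (p : ℕ) (_ : p.Prime) (a a' n n' : ℤ) (h : (p : ℤ) ∣ a - a') (h' : (p : ℤ) ∣ n - n') :
    Trace r p a n ↔ Trace r p a' n' := by
  have e1 : ((a : ℤ) : ZMod p) = ((a' : ℤ) : ZMod p) := by
    rw [← sub_eq_zero, ← Int.cast_sub, ZMod.intCast_zmod_eq_zero_iff_dvd]
    exact h
  have e2 : ((n : ℤ) : ZMod p) = ((n' : ℤ) : ZMod p) := by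
    rw [← sub_eq_zero, ← Int.cast_sub, ZMod.intCast_zmod_eq_zero_iff_dvd]
    exact h'
  have h1 : GoodPrime a n p ↔ GoodPrime a' n' p := by
    unfold GoodPrime
    rw [← ZMod.intCast_zmod_eq_zero_iff_dvd, ← ZMod.intCast_zmod_eq_zero_iff_dvd]
    push_cast
    rw [e1, e2]
  have h2 : pointCount a n p = pointCount a' n' p := by
    unfold pointCount
    rw [e1, e2]
  unfold Trace
  rw [h1, h2]

lemma trace_uniq (p : ℕ) (a n r r' : ℤ) (h : Trace r p a n) (h' : Trace r' p a n) : r = r' := by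
  rw [← h.2, ← h'.2]

/-- a curve which is not good -/
lemma bad_of {δ : ℝ} {x : ℕ} {a n : ℤ} (h : ¬ Good δ x a n) : ∃ r : ℤ, |(r : ℝ)| ≤ (x : ℝ) ^ (δ / 2 / 2) ∧
    3 * √(max 1 (∑ p ∈ pri (4 * x), dens2 (Trace r) p)) * (x : ℝ) ^ (2 * (δ / 2)) <
      |(cntR (Trace r) a n x : ℝ) - ∑ p ∈ pri x, dens2 (Trace r) p| := by
  unfold Good at h
  push Not at h
  obtain ⟨r, h1, h2⟩ := h
  have e1 : δ / 2 / 2 = δ / 4 := by ring
  have e2 : 2 * (δ / 2) = δ := by ring
  refine ⟨r, by rw [e1]; exact h1, ?_⟩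
  rw [e2, ← model_eq, ← model_eq, ← piE_eq]
  exact h2

/-- the change of the range -/
lemma range_two {x W N : ℕ} (hx : 2 ≤ x) (h : x ^ (2 * W) ≤ N) : x ^ W ≤ N ∧ (2 * x) ^ W ≤ N := by
  have h1 : (2 * x) ^ W ≤ x ^ (2 * W) := by
    rw [pow_mul]
    exact Nat.pow_le_pow_left (by nlinarith) W
  have h2 : x ^ W ≤ (2 * x) ^ W := Nat.pow_le_pow_left (by omega) W
  exact ⟨h2.trans (h1.trans h), h1.trans h⟩

/-- the one-dimensional statement for random words -/
theorem fineAt_word (δ₀ : ℝ) (hδ : 0 < δ₀) (hδ1 : δ₀ ≤ 1 / 2) {b : ℕ} {q : ℕ → ℕ → ℝ} (hq : Words b q) : ∃ W : ℕ, 1 ≤ W ∧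
    ∀ κ : ℤ, κ ≠ 0 → ∃ X₀ : ℕ, ∀ X : ℕ, X₀ ≤ X → ∀ (k : ℕ) (w : ℕ → ℝ), WordLaw b q k w → ∀ c : ℤ,
      FineAt δ₀ X (fun x => x ^ W ≤ b ^ k) (2 * (X : ℝ) ^ (-(δ₀ / 2))) (range (b ^ k)) w (fun v => c + κ * (v : ℕ)) := by
  obtain ⟨F, A₀, γ, hF, hγ0, hγ1, hdec⟩ := word_decays hq
  obtain ⟨W, hW, J⟩ := eng_fine δ₀ hδ hδ1 b hq.two A₀ γ hγ0 hγ1
  refine ⟨W, hW, fun κ hκ => ?_⟩
  obtain ⟨X₀, K⟩ := J F κ hF hκ
  refine ⟨X₀, fun X hX k w hw c s => ?_⟩
  have h1 := K X hX k _ _ _ _ _ (dom_of_decays (hdec k w hw κ c)) s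
  rwa [one_mul] at h1

open Classical in
/-- Let `q₁`, `q₂` be laws of random words in the bases `b₁`, `b₂` and `0 < δ ≤ 1`. There is `W` such that for `κ₁, κ₂ ≠ 0` and all
sufficiently large `X` the following holds for all `k₁`, `k₂`, all integers `c₁`, `c₂` and independent random integers
`u < b₁ ^ k₁`, `v < b₂ ^ k₂` written by random words (`WordLaw`).

With probability at least `1 - 8 X ^ (- δ / 4)` the curve `E : y² = x³ + A x + n` with `A = c₁ + κ₁ u` and `n = c₂ + κ₂ v` has the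
following property for ALL `x ≥ X` with `x ^ W ≤ b₁ ^ k₁` and `x ^ W ≤ b₂ ^ k₂` and ALL integers `|r| ≤ x ^ (δ / 4)`: the number
`π_E(x, r)` of the primes `p ≤ x` with `a_p(E) = r` is `M(x)` up to an error of at most `3 x ^ δ (max 1 M(4 x)) ^ (1 / 2)`, where
`M(x)` is the sum over `p ≤ x` of the proportion of the pairs of residues modulo `p` for which the curve has the trace `r`. -/
theorem result (b₁ b₂ : ℕ) (q₁ q₂ : ℕ → ℕ → ℝ) (hq₁ : Words b₁ q₁) (hq₂ : Words b₂ q₂) (δ : ℝ) (hδ : 0 < δ)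
    (hδ1 : δ ≤ 1) : ∃ W : ℕ, 1 ≤ W ∧ ∀ κ₁ κ₂ : ℤ, κ₁ ≠ 0 → κ₂ ≠ 0 → ∃ X₀ : ℕ, ∀ X : ℕ, X₀ ≤ X →
    ∀ (k₁ k₂ : ℕ) (w₁ w₂ : ℕ → ℝ), WordLaw b₁ q₁ k₁ w₁ → WordLaw b₂ q₂ k₂ w₂ → ∀ c₁ c₂ : ℤ,
      ∑ z ∈ (range (b₁ ^ k₁) ×ˢ range (b₂ ^ k₂)).filter (fun z : ℕ × ℕ => ¬ ∀ x : ℕ, X ≤ x → x ^ W ≤ b₁ ^ k₁ → x ^ W ≤ b₂ ^ k₂ →
        Good δ x (c₁ + κ₁ * (z.1 : ℕ)) (c₂ + κ₂ * (z.2 : ℕ))), w₁ z.1 * w₂ z.2 ≤ 8 * (X : ℝ) ^ (-(δ / 4)) := by
  obtain ⟨W₁, hW₁, H₁⟩ := fineAt_word (δ / 2) (by linarith) (by linarith) hq₁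
  obtain ⟨W₂, hW₂, H₂⟩ := fineAt_word (δ / 2) (by linarith) (by linarith) hq₂
  refine ⟨2 * (W₁ + W₂), by omega, fun κ₁ κ₂ hκ₁ hκ₂ => ?_⟩
  obtain ⟨X₁, J₁⟩ := H₁ κ₁ hκ₁
  obtain ⟨X₂, J₂⟩ := H₂ κ₂ hκ₂
  refine ⟨X₁ + X₂ + 2, fun X hX k₁ k₂ w₁ w₂ hw₁ hw₂ c₁ c₂ => ?_⟩
  have F₁ := J₁ X (by omega) k₁ w₁ hw₁ c₁
  have F₂ := J₂ X (by omega) k₂ w₂ hw₂ c₂
  obtain ⟨E, hE⟩ : ∃ E : Finset (ℕ × ℕ), E = (range (b₁ ^ k₁) ×ˢ range (b₂ ^ k₂)).filter (fun z : ℕ × ℕ => ¬ ∀ x : ℕ, X ≤ x →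
        x ^ (2 * (W₁ + W₂)) ≤ b₁ ^ k₁ → x ^ (2 * (W₁ + W₂)) ≤ b₂ ^ k₂ →
        Good δ x (c₁ + κ₁ * (z.1 : ℕ)) (c₂ + κ₂ * (z.2 : ℕ))) := ⟨_, rfl⟩
  rw [← hE]
  have h0 := pairs_trace (fun i _ => law_nonneg hq₁ hw₁ i) (fun i _ => law_nonneg hq₂ hw₂ i)
    (law_sum hw₁).le (law_sum hw₂).le (by linarith : 0 < δ / 2) (by linarith)
      (by omega : 1 ≤ X) (by positivity) F₁ F₂ Trace trace_per trace_uniq E (by rw [hE]; exact filter_subset _ _) (by
        intro z hz
        rw [hE] at hz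
        have h2 := (mem_filter.1 hz).2
        push Not at h2
        obtain ⟨x, hXx, h3, h4, h5⟩ := h2
        have hx2 : 2 ≤ x := by omega
        have key : ∀ (W' Z : ℕ), W' ≤ W₁ + W₂ → x ^ (2 * (W₁ + W₂)) ≤ Z → x ^ W' ≤ Z ∧ (2 * x) ^ W' ≤ Z := by
          intro W' Z hW' hZ
          exact range_two hx2 ((Nat.pow_le_pow_right (by omega) (by omega : 2 * W' ≤ 2 * (W₁ + W₂))).trans hZ)
        exact ⟨x, hXx, (key W₁ _ (by omega) h3).1, (key W₁ _ (by omega) h3).2, (key W₂ _ (by omega) h4).1, bad_of h5⟩)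
  refine h0.trans (le_of_eq ?_)
  have e : δ / 2 / 2 = δ / 4 := by ring
  rw [e]
  ring

end Pool.Agent.Results.MP_631487_nt.WordPairs
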